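import Mathlib

/-!
# Project TW3 (MP_e66f84_ag), block W6b: two lemmas of Galois theory
-/

set_option autoImplicit false

namespace Pool.Agent.TW3

/-- an element which moves a square root -/
theorem exists_neg99 {k E : Type} [Field k] [CharZero k] [Field E] [Algebra k E] [IsAlgClosed E]
    [Algebra.IsAlgebraic k E] (S : Set E) (m d : E) (hd : d ^ 2 = m)
    (hm : m ∈ IntermediateField.adjoin k S) (hn : ∀ y ∈ IntermediateField.adjoin k S, y ^ 2 ≠ m) :
    ∃ σ : E ≃ₐ[k] E, (∀ s ∈ S, σ s = s) ∧ σ d = -d := by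
  classical
  obtain ⟨M, hM⟩ : ∃ M : IntermediateField k E, M = IntermediateField.adjoin k S := ⟨_, rfl⟩
  rw [← hM] at hm
  have hdM : d ∉ M := fun h => hn d (by rw [← hM]; exact h) hd
  have halgM : Algebra.IsAlgebraic M E := inferInstance
  have hcl : IsAlgClosure M E := ⟨inferInstance, halgM⟩
  have hnorm := IsAlgClosure.normal M E
  have hgal : IsGalois M E := ⟨⟩
  obtain ⟨τ, hτ⟩ : ∃ τ : E ≃ₐ[M] E, τ d ≠ d := by
    by_contra hcon
    push Not at hcon
    have h1 := InfiniteGalois.fixedField_bot (k := M) (K := E)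
    have h2 : d ∈ (⊥ : IntermediateField M E) := by
      rw [← h1]
      intro ⟨g, _⟩
      exact hcon g
    obtain ⟨y, hy⟩ := IntermediateField.mem_bot.1 h2
    exact hdM (hy ▸ y.2)
  refine ⟨τ.restrictScalars k, fun s hs => ?_, ?_⟩
  · have hsM : s ∈ M := by
      rw [hM]
      exact IntermediateField.subset_adjoin k S hs
    exact τ.commutes ⟨s, hsM⟩
  · have h1 : (τ d) ^ 2 = d ^ 2 := by
      rw [← map_pow, hd]
      exact τ.commutes ⟨m, hm⟩
    rcases sq_eq_sq_iff_eq_or_eq_neg.1 h1 with h2 | h2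
    · exact absurd h2 hτ
    · exact h2

/-- an orbit of odd length -/
theorem odd_orbit99 {k E : Type} [Field k] [CharZero k] [Field E] [Algebra k E] [IsAlgClosed E]
    [Algebra.IsAlgebraic k E] (p : E) (hodd : Odd (minpoly k p).natDegree) (σ : E ≃ₐ[k] E) :
    ∃ p' : E, Polynomial.aeval p' (minpoly k p) = 0 ∧ ∃ n : ℕ, Odd n ∧ (σ ^ n) p' = p' := by
  classical
  have hint : IsIntegral k p := Algebra.IsIntegral.isIntegral p
  have hirr := minpoly.irreducible hint
  have hsep : (minpoly k p).Separable := hirr.separable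
  have hcard : Fintype.card ((minpoly k p).rootSet E) = (minpoly k p).natDegree :=
    Polynomial.card_rootSet_eq_natDegree hsep (IsAlgClosed.splits _)
  have hσ : ∀ x ∈ (minpoly k p).rootSet E, σ x ∈ (minpoly k p).rootSet E := by
    intro x hx
    rw [Polynomial.mem_rootSet] at hx ⊢
    refine ⟨hx.1, ?_⟩
    rw [Polynomial.aeval_algHom_apply σ, hx.2, map_zero]
  have hσ' : ∀ x ∈ (minpoly k p).rootSet E, σ.symm x ∈ (minpoly k p).rootSet E := by
    intro x hx
    rw [Polynomial.mem_rootSet] at hx ⊢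
    refine ⟨hx.1, ?_⟩
    rw [Polynomial.aeval_algHom_apply σ.symm, hx.2, map_zero]
  let π : Equiv.Perm ((minpoly k p).rootSet E) :=
    { toFun := fun x => ⟨σ x.1, hσ x.1 x.2⟩
      invFun := fun x => ⟨σ.symm x.1, hσ' x.1 x.2⟩
      left_inv := fun x => Subtype.ext (σ.symm_apply_apply _)
      right_inv := fun x => Subtype.ext (σ.apply_symm_apply _) }
  have hπ : ∀ (n : ℕ) (x : (minpoly k p).rootSet E), ((π ^ n) x).1 = (σ ^ n) x.1 := by
    intro n
    induction n with
    | zero => intro x; rfl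
    | succ n ih =>
      intro x
      rw [pow_succ, Equiv.Perm.mul_apply, ih, pow_succ, AlgEquiv.mul_apply]
      rfl
  obtain ⟨a, m, hm, ham⟩ : ∃ a m : ℕ, Odd m ∧ orderOf π = 2 ^ a * m := by
    obtain ⟨a, m, h1, h2⟩ := Nat.exists_eq_two_pow_mul_odd (orderOf_pos π).ne'
    exact ⟨a, m, h1, h2⟩
  have h1 : (π ^ m) ^ 2 ^ a = 1 := by
    rw [← pow_mul, mul_comm, ← ham, pow_orderOf_eq_one]
  obtain ⟨x, hx'⟩ := Equiv.Perm.exists_fixed_point_of_prime (p := 2) (n := a) (σ := π ^ m) (by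
    rw [hcard]
    obtain ⟨j, hj⟩ := hodd
    omega) h1
  refine ⟨x.1, ?_, m, hm, ?_⟩
  · have := x.2
    rw [Polynomial.mem_rootSet] at this
    exact this.2
  · rw [← hπ, hx']

end Pool.Agent.TW3
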