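import Pool.Agent.Helper97.TW.AN2
import Pool.Agent.Helper37.TW3.Defs2

/-!
# Project TW3 (MP_e66f84_ag), block W4: the count with a set of special components, the rational
branch points
-/

set_option autoImplicit false
set_option linter.unusedSectionVars false

namespace Pool.Agent.TW3

open VC IntermediateField NumberField IsDedekindDomain Filter Topology Pool.Agent.SC Pool.Agent.L
  Pool.Agent.M
open Pool.Agent.HG (Pr nm IsOdd Ctx Gd Ev Od DatM Special BTR BadT StmtSel)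
open Pool.Agent.Helper99.HG (CD pf Nm BT TA Sys)
open Pool.Agent.TW (TBt StmtCountLt GlT tendsto_log_rpow97)

private theorem one_le_log99 {X : ℕ} (hX : 3 ≤ X) : 1 ≤ Real.log X := by
  have e : Real.exp 1 ≤ X := by
    have := Real.exp_one_lt_d9
    have h3' : (3 : ℝ) ≤ X := by exact_mod_cast hX
    linarith
  calc (1 : ℝ) = Real.log (Real.exp 1) := (Real.log_exp 1).symm
    _ ≤ Real.log X := Real.log_le_log (Real.exp_pos 1) e

private theorem inv_rpow_le99 {X : ℕ} (hX : 3 ≤ X) {a b : ℝ} (h : a ≤ b) :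
    1 / Real.log X ^ b ≤ 1 / Real.log X ^ a := by
  have h1 := one_le_log99 hX
  refine one_div_le_one_div_of_le (by positivity) ?_
  exact Real.rpow_le_rpow_of_exponent_le h1 h

/-- common constants for finitely many special components -/
theorem countLt_unif99 (hCL : StmtCountLt) {kk : ℕ} {G : Type} [CommGroup G] (D : CD kk G)
    (hS : Sys D.P D.nm) (hV : ∃ K : ℕ, ∀ p, (D.V p).card ≤ K) (hBT : BT D)
    (R₀ : Finset (Fin kk)) (hSp : ∀ j ∈ R₀, Special D j) (hR : ∀ j ∈ R₀, BTR D j)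
    (h2 : ∀ j ∈ R₀, ∀ J : Finset (Fin kk), j ∈ J → J ≠ {j} → TBt D J) :
    ∃ ε η C : ℝ, 0 < ε ∧ ε < 1 ∧ 0 < η ∧ 0 < C ∧ ∀ j ∈ R₀, ∀ Y B : ℕ, 3 ≤ Y → 3 ≤ B →
      ∀ S : Finset (Finset D.P), (∀ c ∈ S, Nm D c ≤ Y ∧ ∃ τ : D.P → D.O, BadT D c τ ∧
        (∃ p ∈ pf D c, D.cmp (τ p) ≠ j ∧ B ≤ D.nm p) ∧
        ∀ p ∈ pf D c, D.cmp (τ p) ≠ j → (D.nm p : ℝ) ≤ Real.exp (Real.log Y ^ ε)) →
      (S.card : ℝ) ≤ C * Y * (1 / Real.log B ^ η + 1 / Real.log Y ^ η) := by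
  classical
  induction R₀ using Finset.induction_on with
  | empty =>
    exact ⟨1 / 2, 1, 1, by norm_num, by norm_num, one_pos, one_pos, fun j hj =>
      absurd hj (Finset.notMem_empty j)⟩
  | insert a s ha ih =>
    obtain ⟨ε, η, C, c1, c2, c3, c4, c5⟩ := ih (fun j hj => hSp j (Finset.mem_insert_of_mem hj))
      (fun j hj => hR j (Finset.mem_insert_of_mem hj))
      (fun j hj => h2 j (Finset.mem_insert_of_mem hj))
    obtain ⟨ε', η', C', d1, d2, d3, d4, d5⟩ := hCL kk G D hS hV hBT a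
      (hSp a (Finset.mem_insert_self _ _)) (hR a (Finset.mem_insert_self _ _))
      (h2 a (Finset.mem_insert_self _ _))
    refine ⟨min ε ε', min η η', max C C', lt_min c1 d1, (min_le_left _ _).trans_lt c2,
      lt_min c3 d3, lt_max_of_lt_left c4, fun j hj Y B hY hB S hSc => ?_⟩
    have hY0 : (0 : ℝ) ≤ Y := Nat.cast_nonneg Y
    have hlY := one_le_log99 hY
    have hlB := one_le_log99 hB
    -- the monotonicity
    have key : ∀ ε₁ η₁ C₁ : ℝ, min ε ε' ≤ ε₁ → min η η' ≤ η₁ → C₁ ≤ max C C' → 0 < C₁ →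
        ((∀ c ∈ S, Nm D c ≤ Y ∧ ∃ τ : D.P → D.O, BadT D c τ ∧
          (∃ p ∈ pf D c, D.cmp (τ p) ≠ j ∧ B ≤ D.nm p) ∧
          ∀ p ∈ pf D c, D.cmp (τ p) ≠ j → (D.nm p : ℝ) ≤ Real.exp (Real.log Y ^ ε₁)) →
        (S.card : ℝ) ≤ C₁ * Y * (1 / Real.log B ^ η₁ + 1 / Real.log Y ^ η₁)) →
        (S.card : ℝ) ≤ max C C' * Y * (1 / Real.log B ^ min η η' + 1 / Real.log Y ^ min η η') := by
      intro ε₁ η₁ C₁ e1 e2 e3 e4 e5
      refine (e5 fun c hc => ?_).trans ?_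
      · obtain ⟨g1, τ, g2, g3, g4⟩ := hSc c hc
        refine ⟨g1, τ, g2, g3, fun p hp hpj => (g4 p hp hpj).trans (Real.exp_le_exp.2 ?_)⟩
        exact Real.rpow_le_rpow_of_exponent_le hlY e1
      · have g1 := inv_rpow_le99 hB e2
        have g2 := inv_rpow_le99 hY e2
        have g3 : 0 ≤ 1 / Real.log B ^ η₁ := by positivity
        have g4 : 0 ≤ 1 / Real.log Y ^ η₁ := by positivity
        have g5 : 0 ≤ max C C' := e4.le.trans e3
        refine mul_le_mul (mul_le_mul_of_nonneg_right e3 hY0) (add_le_add g1 g2)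
          (add_nonneg g3 g4) (mul_nonneg g5 hY0)
    rcases Finset.mem_insert.1 hj with rfl | hj
    · exact key ε' η' C' (min_le_right _ _) (min_le_right _ _) (le_max_right _ _) d4
        (fun h => d5 Y B hY (by omega) S h)
    · exact key ε η C (min_le_left _ _) (min_le_left _ _) (le_max_left _ _) c4
        (fun h => c5 j hj Y B hY hB S h)

open scoped Classical in
/-- few sets satisfy the conditions of one of finitely many counting problems with, for every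
component `j` of `R₀`, an option outside `j` at a prime above `B` -/
theorem count99R (hCN : StmtCountNR) (hCL : StmtCountLt) {kk : ℕ} {G : Type} [CommGroup G]
    {H : Type} [Finite H] (D : H → CD kk G) (R₀ : Finset (Fin kk)) (hR₀ : R₀.Nonempty)
    (hS : ∀ i, Sys (D i).P (D i).nm) (hV : ∀ i, ∃ K : ℕ, ∀ p, ((D i).V p).card ≤ K)
    (hBT : ∀ i, BT (D i)) (hSp : ∀ i, ∀ j ∈ R₀, Special (D i) j)
    (hR : ∀ i, ∀ j ∈ R₀, BTR (D i) j)
    (h1 : ∀ i, ∀ J : Finset (Fin kk), (∃ j ∈ R₀, J = {j}) ∨ TA (D i) J ∨ TBt (D i) J)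
    (h2 : ∀ i, ∀ j ∈ R₀, ∀ J : Finset (Fin kk), j ∈ J → J ≠ {j} → TBt (D i) J)
    {ε : ℝ} (hε : 0 < ε) :
    ∃ B : ℕ, 2 ≤ B ∧ ∀ᶠ Y : ℕ in atTop, ∀ S : ∀ i : H, Finset (Finset (D i).P),
      (∀ i, ∀ c ∈ S i, Nm (D i) c ≤ Y ∧ ∃ τ : (D i).P → (D i).O, BadT (D i) c τ ∧
        ∀ j ∈ R₀, ∃ p ∈ pf (D i) c, (D i).cmp (τ p) ≠ j ∧ B ≤ (D i).nm p) →
      ∀ [Fintype H], ∑ i, ((S i).card : ℝ) ≤ ε * Y := by
  have hfH : Fintype H := Fintype.ofFinite H
  have hN : ∀ i : H, ∃ ε η C η' C' : ℝ, 0 < ε ∧ ε < 1 ∧ 0 < η ∧ 0 < C ∧ 0 < η' ∧ 0 < C' ∧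
      (∀ j ∈ R₀, ∀ Y B : ℕ, 3 ≤ Y → 3 ≤ B → ∀ S : Finset (Finset (D i).P),
        (∀ c ∈ S, Nm (D i) c ≤ Y ∧ ∃ τ : (D i).P → (D i).O,
          BadT (D i) c τ ∧
          (∃ p ∈ pf (D i) c, (D i).cmp (τ p) ≠ j ∧ B ≤ (D i).nm p) ∧
          ∀ p ∈ pf (D i) c, (D i).cmp (τ p) ≠ j →
            ((D i).nm p : ℝ) ≤ Real.exp (Real.log Y ^ ε)) →
        (S.card : ℝ) ≤ C * Y * (1 / Real.log B ^ η + 1 / Real.log Y ^ η)) ∧
      (∀ Y : ℕ, 3 ≤ Y → ∀ S : Finset (Finset (D i).P),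
        (∀ c ∈ S, Nm (D i) c ≤ Y ∧ ∃ τ : (D i).P → (D i).O,
          BadT (D i) c τ ∧
          ∀ j ∈ R₀, ∃ p ∈ pf (D i) c, (D i).cmp (τ p) ≠ j ∧
            Real.exp (Real.log Y ^ ε) ≤ (D i).nm p) →
        (S.card : ℝ) ≤ C' * Y / Real.log Y ^ η') := by
    intro i
    obtain ⟨ε₁, η, C, c1, c2, c3, c4, c5⟩ := countLt_unif99 hCL (D i) (hS i) (hV i) (hBT i) R₀
      (hSp i) (hR i) (h2 i)
    obtain ⟨η', C', d1, d2, d3⟩ := hCN kk G (D i) (hS i) (hV i) (hBT i) R₀ hR₀ (hSp i) (h1 i) ε₁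
      c1 c2
    exact ⟨ε₁, η, C, η', C', c1, c2, c3, c4, d1, d2, c5, d3⟩
  choose ε₁ η C η' C' he0 he1 hη hC hη' hC' hCL' hCN' using hN
  have hB1 : Tendsto (fun B : ℕ => ∑ i : H, R₀.card * (C i / Real.log B ^ η i)) atTop (𝓝 0) := by
    have := tendsto_finsetSum (Finset.univ : Finset H)
      (fun i _ => (tendsto_log_rpow97 (hη i) (C i)).const_mul (R₀.card : ℝ))
    simpa using this
  obtain ⟨B, hB2, hBε⟩ := ((eventually_ge_atTop 3).and
    (hB1.eventually_le_const (half_pos hε))).exists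
  have hlim : Tendsto (fun Y : ℕ => (∑ i : H, (R₀.card * (C i / Real.log Y ^ η i) +
      C' i / Real.log Y ^ η' i))) atTop (𝓝 0) := by
    have h1 := tendsto_finsetSum (Finset.univ : Finset H)
      (fun i _ => ((tendsto_log_rpow97 (hη i) (C i)).const_mul (R₀.card : ℝ)).add
        (tendsto_log_rpow97 (hη' i) (C' i)))
    simpa using h1
  refine ⟨B, by omega, ?_⟩
  filter_upwards [hlim.eventually_le_const (half_pos hε), eventually_ge_atTop 3] with Y hY hY3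
  intro S hSc hfH'
  have hsub : hfH' = hfH := Subsingleton.elim _ _
  subst hsub
  have hY0 : (0 : ℝ) ≤ Y := Nat.cast_nonneg Y
  -- the kinds
  let S1 : ∀ i : H, Fin kk → Finset (Finset (D i).P) := fun i j => (S i).filter fun A =>
    ∃ τ : (D i).P → (D i).O, BadT (D i) A τ ∧
      (∃ p ∈ pf (D i) A, (D i).cmp (τ p) ≠ j ∧ B ≤ (D i).nm p) ∧
      ∀ p ∈ pf (D i) A, (D i).cmp (τ p) ≠ j → ((D i).nm p : ℝ) ≤ Real.exp (Real.log Y ^ ε₁ i)
  let S2 : ∀ i : H, Finset (Finset (D i).P) := fun i => (S i).filter fun A =>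
    ∃ τ : (D i).P → (D i).O, BadT (D i) A τ ∧
      ∀ j ∈ R₀, ∃ p ∈ pf (D i) A, (D i).cmp (τ p) ≠ j ∧ Real.exp (Real.log Y ^ ε₁ i) ≤ (D i).nm p
  have hcov : ∀ i, S i ⊆ (R₀.biUnion fun j => S1 i j) ∪ S2 i := by
    intro i A hA
    obtain ⟨_, τ, hbt, hlarge⟩ := hSc i A hA
    by_cases hbig : ∀ j ∈ R₀, ∃ p ∈ pf (D i) A, (D i).cmp (τ p) ≠ j ∧
        Real.exp (Real.log Y ^ ε₁ i) ≤ (D i).nm p
    · exact Finset.mem_union_right _ (Finset.mem_filter.2 ⟨hA, τ, hbt, hbig⟩)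
    · push Not at hbig
      obtain ⟨j, hj, hbig⟩ := hbig
      exact Finset.mem_union_left _ (Finset.mem_biUnion.2 ⟨j, hj, Finset.mem_filter.2
        ⟨hA, τ, hbt, hlarge j hj, fun q hq hqj => (hbig q hq hqj).le⟩⟩)
  have hS1 : ∀ i : H, ∀ j ∈ R₀, ((S1 i j).card : ℝ) ≤
      C i * Y * (1 / Real.log B ^ η i + 1 / Real.log Y ^ η i) := by
    intro i j hj
    refine hCL' i j hj Y B hY3 hB2 (S1 i j) fun A hA => ?_
    obtain ⟨h1, h2⟩ := Finset.mem_filter.1 hA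
    exact ⟨(hSc i A h1).1, h2⟩
  have hS2 : ∀ i : H, ((S2 i).card : ℝ) ≤ C' i * Y / Real.log Y ^ η' i := by
    intro i
    refine hCN' i Y hY3 (S2 i) fun A hA => ?_
    obtain ⟨h1, h2⟩ := Finset.mem_filter.1 hA
    exact ⟨(hSc i A h1).1, h2⟩
  have hSi : ∀ i : H, ((S i).card : ℝ) ≤
      R₀.card * (C i * Y * (1 / Real.log B ^ η i + 1 / Real.log Y ^ η i)) +
        C' i * Y / Real.log Y ^ η' i := by
    intro i
    have g1 : (S i).card ≤ ∑ j ∈ R₀, (S1 i j).card + (S2 i).card :=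
      (Finset.card_le_card (hcov i)).trans ((Finset.card_union_le _ _).trans
        (Nat.add_le_add_right Finset.card_biUnion_le _))
    have g2 : ((S i).card : ℝ) ≤ ∑ j ∈ R₀, ((S1 i j).card : ℝ) + (S2 i).card := by
      exact_mod_cast g1
    have g3 : ∑ j ∈ R₀, ((S1 i j).card : ℝ) ≤
        R₀.card * (C i * Y * (1 / Real.log B ^ η i + 1 / Real.log Y ^ η i)) := by
      refine (Finset.sum_le_sum (hS1 i)).trans (le_of_eq ?_)
      rw [Finset.sum_const, nsmul_eq_mul]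
    exact g2.trans (add_le_add g3 (hS2 i))
  calc ∑ i, ((S i).card : ℝ) ≤ ∑ i : H,
        (R₀.card * (C i * Y * (1 / Real.log B ^ η i + 1 / Real.log Y ^ η i)) +
          C' i * Y / Real.log Y ^ η' i) := Finset.sum_le_sum fun i _ => hSi i
    _ = (∑ i : H, R₀.card * (C i / Real.log B ^ η i)) * Y +
        (∑ i : H, (R₀.card * (C i / Real.log Y ^ η i) + C' i / Real.log Y ^ η' i)) * Y := by
        rw [Finset.sum_mul, Finset.sum_mul, ← Finset.sum_add_distrib]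
        refine Finset.sum_congr rfl fun i _ => ?_
        ring
    _ ≤ (ε / 2) * Y + (ε / 2) * Y :=
        add_le_add (mul_le_mul_of_nonneg_right hBε hY0) (mul_le_mul_of_nonneg_right hY hY0)
    _ = ε * Y := by ring

/-- the rational branch points are the roots in `k` -/
theorem exists_rat99 {k K0 E U : Type} [Field k] [NumberField k]
    [Field K0] [Field E] [Field U] [Algebra k K0]
    [Algebra k E] [Algebra E U] [Algebra K0 U] [Algebra k U] [IsScalarTower k E U]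
    [IsScalarTower k K0 U] {h : K0} {r : U} (G : Geo k K0 E U h r)
    {c₀ : k} {Φ₀ : (E ≃ₐ[k] E) →* (U ≃+* U)} (hc₀ : c₀ ≠ 0) (hA₀ : Act (K0 := K0) r c₀ Φ₀)
    {f : Polynomial k} {θ : Place E (L0 E K0 (U := U)) → E} (Gl' : GlT h r f θ)
    {R : Finset (Place E (L0 E K0 (U := U)))} (hO : ManyRat (k := k) h r R) :
    ∃ root : Place E (L0 E K0 (U := U)) → k,
      (∀ b ∈ R, algebraMap k E (root b) = θ b ∧ Polynomial.eval (root b) f = 0) ∧
      ∀ a : k, Polynomial.eval a f = 0 → ∃ b ∈ R, root b = a := by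
  classical
  have hclE : IsAlgClosed E := G.clE
  have halg : Algebra.IsAlgebraic k E := G.algE
  have hev : ∀ b : k, Polynomial.eval b f = 0 → Polynomial.aeval (algebraMap k E b) f = 0 := by
    intro b hb
    rw [Polynomial.aeval_algebraMap_apply]
    have : Polynomial.aeval b f = 0 := hb
    rw [this, map_zero]
  have hgal : IsGalois k E := by
    have : IsAlgClosure k E := ⟨inferInstance, inferInstance⟩
    have := IsAlgClosure.normal k E
    exact ⟨⟩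
  have hex : ∀ b : Place E (L0 E K0 (U := U)), ∃ a : k, b ∈ R → algebraMap k E a = θ b := by
    intro b
    by_cases hb : b ∈ R
    · have h1 := InfiniteGalois.fixedField_bot (k := k) (K := E)
      have h2 : θ b ∈ (⊥ : IntermediateField k E) := by
        rw [← h1]
        intro ⟨g, _⟩
        exact (Gl'.act c₀ Φ₀ hc₀ hA₀ g b b (hO.br b hb) (hO.br b hb)).1 (hO.fix b hb c₀ Φ₀ hc₀ hA₀ g)
      obtain ⟨a, ha⟩ := IntermediateField.mem_bot.1 h2
      exact ⟨a, fun _ => ha⟩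
    · exact ⟨0, fun h => absurd h hb⟩
  choose root hroot using hex
  refine ⟨root, fun b hb => ⟨hroot b hb, ?_⟩, fun a ha => ?_⟩
  · have h1 := Gl'.root b (hO.br b hb)
    rw [← hroot b hb, Polynomial.aeval_algebraMap_apply, map_eq_zero] at h1
    exact h1
  · obtain ⟨b, hb, hbθ⟩ := Gl'.ex _ (hev a ha)
    have h1 : b ∈ R := by
      by_contra hne
      obtain ⟨σ, hσ⟩ := hO.only c₀ Φ₀ hc₀ hA₀ b hb hne
      exact hσ ((Gl'.act c₀ Φ₀ hc₀ hA₀ σ b b hb hb).2 (by rw [hbθ, AlgEquiv.commutes]))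
    refine ⟨b, h1, ?_⟩
    apply (algebraMap k E).injective
    rw [hroot b h1, hbθ]

end Pool.Agent.TW3
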